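import Pool.Agent.Work.MP_149e94_lc.Transfer

/-!
For every constant ε > 0, every weighted graph with unique shortest paths has a (β, ε)-hopset
whose hop bound β and vertex sensitivity are both polylogarithmic.
-/

namespace Pool.Agent.Results.MP_149e94_lc.PolylogHopsets

open Pool.Agent.Work.MP_149e94_lc

theorem result (ε : ℝ) (hε : 0 < ε) : ∃ C : ℕ, ∀ (V : Type) [Fintype V] (G : SimpleGraph V)
    (w : Sym2 V → ℝ), (∀ e ∈ G.edgeSet, 0 < w e) → UniqueShortest G w → 2 ≤ Fintype.card V →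
    ∃ (β : ℕ) (H : Set (Sym2 V)), 1 ≤ β ∧ IsHopset G w β ε H ∧
      (β : ℝ) ≤ C * Real.logb 2 (Fintype.card V) ^ C ∧
      ∀ v, (sens G w H v : ℝ) ≤ C * Real.logb 2 (Fintype.card V) ^ C :=
  final ε hε

end Pool.Agent.Results.MP_149e94_lc.PolylogHopsets
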